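import Pool.Agent.H75.TT.DG
import Pool.Agent.H75.TT.PinchDefs

/-!
The tt-field property from perfect pairings (job TT-J): a chain map from the unit (as a complex
concentrated in degree zero) to any semi-free complex which is not null-homotopic is a split
monomorphism of complexes.
-/

open CategoryTheory CategoryTheory.Limits MonoidalCategory

namespace Pool.Agent.H47.TT

open Pool.Agent.H75.TT Pool.Agent.H75.TT.Fam

variable {k : Type} [Field k] {P : Type} [Category.{0} P] [Preadditive P]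

/-- The family with one object. -/
abbrev one (X : P) : Fam P := ⟨Unit, fun _ => X⟩

/-- The complex concentrated in degree zero with one object. -/
noncomputable abbrev ofObj (X : P) : DG P where
  F := one X
  deg _ := 0
  d := 0
  hd := Homog.zero
  dd := by simp
  wf := ⟨fun i => ⟨i, fun j h => absurd rfl h⟩⟩

section linear

variable [Linear k P]

/-- The boundaries inside the space of all rows of maps from `X`. -/
def bdry (X : P) (G : DG P) : Submodule k (∀ j : G.F.ι, X ⟶ G.F.X j) where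
  carrier := {x | ∃ h : one X ⟶ G.F,
    Homog (fun _ => 0) G.deg (-1) h ∧ ∀ j, x j = (h ≫ G.d).m () j}
  zero_mem' := ⟨0, Homog.zero, fun j => by simp⟩
  add_mem' := by
    rintro x y ⟨h, hh, ex⟩ ⟨h', hh', ey⟩
    refine ⟨h + h', hh.add hh', fun j => ?_⟩
    rw [Preadditive.add_comp, add_m, ← ex, ← ey]
    rfl
  smul_mem' := by
    rintro c x ⟨h, hh, ex⟩
    have hfin : ∀ i, {j | c • h.m i j ≠ 0}.Finite := fun i =>
      (h.fin i).subset fun j hj h0 => hj (by rw [h0, smul_zero])
    refine ⟨⟨fun i j => c • h.m i j, hfin⟩, fun i j hne => hh i j fun h0 => hne ?_, fun j => ?_⟩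
    · change c • h.m i j = 0
      rw [h0, smul_zero]
    · rw [Pi.smul_apply, ex j, comp_m_supp, Finset.smul_sum]
      refine Eq.trans ?_ (Hom.comp_m_sum (⟨fun i j => c • h.m i j, hfin⟩ : Hom _ _) G.d () j
        (Hom.supp h ()) (fun l hl => ?_)).symm
      · exact Finset.sum_congr rfl fun l _ => (Linear.smul_comp _ _ _ _ _ _).symm
      · rw [Hom.mem_supp]
        intro h0
        exact hl (by change c • h.m () l = 0; rw [h0, smul_zero])

end linear

variable [Linear k P] [MonoidalCategory P]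

/-- Main statement on the level of matrices. -/
theorem exists_retraction_mat (pp : PerfPair k P) (G : DG P) (u : one (𝟙_ P) ⟶ G.F)
    (hu0 : Homog (fun _ => 0) G.deg 0 u)
    (hu : ∀ h : one (𝟙_ P) ⟶ G.F, Homog (fun _ => 0) G.deg (-1) h → u ≠ h ≫ G.d) :
    ∃ v : G.F ⟶ one (𝟙_ P), Homog G.deg (fun _ => 0) 0 v ∧ G.d ≫ v = 0 ∧ u ≫ v = 𝟙 _ := by
  classical
  -- the row of `u` is not a boundary
  have hub : u.m () ∉ bdry (k := k) (𝟙_ P) G := by
    rintro ⟨h, hh, e⟩
    exact hu h hh (Fam.hom_ext fun i j => e j)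
  obtain ⟨lam0, hl0, hlb⟩ := Submodule.exists_le_ker_of_notMem hub
  -- normalise
  let lam : (∀ j : G.F.ι, 𝟙_ P ⟶ G.F.X j) →ₗ[k] k := (lam0 (u.m ()))⁻¹ • lam0
  have hlam1 : lam (u.m ()) = 1 := by
    change (lam0 (u.m ()))⁻¹ * lam0 (u.m ()) = 1
    exact inv_mul_cancel₀ hl0
  have hlamb : ∀ x ∈ bdry (k := k) (𝟙_ P) G, lam x = 0 := by
    intro x hx
    change (lam0 (u.m ()))⁻¹ * lam0 x = 0
    rw [show lam0 x = 0 from hlb hx, mul_zero]
  choose r ub vb hbx hby using pp.basis
  -- the retraction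
  let vm : ∀ j : G.F.ι, G.F.X j ⟶ 𝟙_ P := fun j =>
    if G.deg j = 0 then
      ∑ i, lam (Pi.single j (ub (G.F.X j) i)) • vb (G.F.X j) i
    else 0
  let vf : G.F ⟶ one (𝟙_ P) := ⟨fun j _ => vm j, fun j => Set.toFinite _⟩
  have hvf : Homog G.deg (fun _ => (0 : ℤ)) 0 vf := by
    intro j _ hne
    by_contra h
    apply hne
    change vm j = 0
    exact if_neg fun h0 => h (by simp [h0])
  -- the key formula
  have key1 : ∀ (j : G.F.ι) (_ : G.deg j = 0) (x : 𝟙_ P ⟶ G.F.X j),
      x ≫ vm j = lam (Pi.single j x) • 𝟙 (𝟙_ P) := by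
    intro j hj x
    choose c hc using fun i => pp.end_one (x ≫ vb (G.F.X j) i)
    have hx : x = ∑ i, c i • ub (G.F.X j) i := by
      conv_lhs => rw [hbx (G.F.X j) x]
      refine Finset.sum_congr rfl fun i _ => ?_
      rw [hc i, Linear.smul_comp, Category.id_comp]
    have h1 : Pi.single (M := fun j : G.F.ι => 𝟙_ P ⟶ G.F.X j) j x
        = ∑ i, c i • Pi.single (M := fun j : G.F.ι => 𝟙_ P ⟶ G.F.X j) j (ub (G.F.X j) i) := by
      have := congrArg (LinearMap.single k (fun j : G.F.ι => 𝟙_ P ⟶ G.F.X j) j) hx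
      rw [map_sum] at this
      simpa using this
    rw [h1, map_sum]
    simp only [vm, if_pos hj, Preadditive.comp_sum, Linear.comp_smul, map_smul, hc]
    rw [Finset.sum_smul]
    refine Finset.sum_congr rfl fun i _ => ?_
    rw [smul_smul, smul_eq_mul, mul_comm]
  have key : ∀ (x : one (𝟙_ P) ⟶ G.F),
      Homog (fun _ => (0 : ℤ)) G.deg 0 x → (x ≫ vf).m () () = lam (x.m ()) • 𝟙 (𝟙_ P) := by
    intro x hx
    have h1 : x.m () = ∑ j ∈ Hom.supp x (), Pi.single (M := fun j : G.F.ι => 𝟙_ P ⟶ G.F.X j) j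
        (x.m () j) := by
      funext l
      rw [Finset.sum_apply]
      by_cases hl : l ∈ Hom.supp x ()
      · rw [Finset.sum_eq_single l, Pi.single_eq_same]
        · intro b _ hb
          rw [Pi.single_eq_of_ne hb.symm]
        · intro h
          exact absurd hl h
      · rw [Finset.sum_eq_zero]
        · rw [Hom.mem_supp, not_not] at hl
          exact hl
        · intro b hb
          rw [Pi.single_eq_of_ne]
          rintro rfl
          exact hl hb
    have hs : ∀ j ∈ Hom.supp x (), G.deg j = 0 := by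
      intro j hj
      have := hx () j ((Hom.mem_supp _ _ _).1 hj)
      simpa using this
    have h2 : (Hom.supp x ()).sum (fun j => x.m () j ≫ vf.m j ())
        = ∑ j ∈ Hom.supp x (), lam (Pi.single j (x.m () j)) • 𝟙 (𝟙_ P) :=
      Finset.sum_congr rfl fun j hj => key1 j (hs j hj) (x.m () j)
    rw [comp_m_supp]
    refine h2.trans ?_
    conv_rhs => rw [h1, map_sum, Finset.sum_smul]
  have hdv : G.d ≫ vf = 0 := by
    ext j t
    change (G.d ≫ vf).m j () = 0
    by_cases hj : G.deg j = -1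
    · rw [hby (G.F.X j) ((G.d ≫ vf).m j ())]
      refine Finset.sum_eq_zero fun i _ => ?_
      have h1 : ∀ w : 𝟙_ P ⟶ G.F.X j, w ≫ (G.d ≫ vf).m j () = 0 := by
        intro w
        obtain ⟨h, rfl⟩ : ∃ h : one (𝟙_ P) ⟶ G.F, h = diag (fun _ => j) (fun _ => w) :=
          ⟨_, rfl⟩
        have hh : Homog (F := one (𝟙_ P)) (G := G.F) (fun _ => (0 : ℤ)) G.deg (-1)
            (diag (fun _ => j) (fun _ => w)) := Homog.diag fun _ => by simp [hj]
        have h2 := diag_comp_m (F := one (𝟙_ P)) (G := G.F) (fun _ => j) (fun _ => w)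
          (G.d ≫ vf) () ()
        refine h2.symm.trans ?_
        rw [← Category.assoc, key _ (hh.comp' G.hd (by norm_num)),
          hlamb _ ⟨_, hh, fun _ => rfl⟩, zero_smul]
      rw [h1, comp_zero]
    · rw [comp_m_supp]
      refine Finset.sum_eq_zero fun l hl => ?_
      have h1 : G.deg l = G.deg j + 1 := G.hd j l ((Hom.mem_supp _ _ _).1 hl)
      have h2 : G.deg l ≠ 0 := by omega
      have h3 : vf.m l () = 0 := if_neg h2
      rw [h3, comp_zero]
  refine ⟨vf, hvf, hdv, ?_⟩
  refine Fam.hom_ext fun i j => ?_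
  have h1 := key u hu0
  rw [hlam1, one_smul] at h1
  exact h1.trans (id_m_self (one (𝟙_ P)) ()).symm

/-- Main statement on the level of complexes. -/
theorem exists_retraction (pp : PerfPair k P) (G : DG P) (u : ofObj (𝟙_ P) ⟶ G)
    (hu : ¬ DG.Homotopic u 0) : ∃ v : G ⟶ ofObj (𝟙_ P), u ≫ v = 𝟙 _ := by
  obtain ⟨v, hv0, hdv, huv⟩ := exists_retraction_mat pp G u.f u.hf fun h hh e => hu ⟨h, hh, by
    rw [e]
    simp⟩
  exact ⟨⟨v, hv0, by rw [hdv]; simp⟩, DG.hom_ext huv⟩

/-- Main statement in the homotopy category. -/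
theorem exists_retraction_T (pp : PerfPair k P) (G : T P) (u : T.Q.obj (ofObj (𝟙_ P)) ⟶ G)
    (hu : u ≠ 0) : ∃ v : G ⟶ T.Q.obj (ofObj (𝟙_ P)), u ≫ v = 𝟙 _ := by
  obtain ⟨G⟩ := G
  obtain ⟨u', rfl⟩ := (T.Q (P := P)).map_surjective (X := ofObj (𝟙_ P)) (Y := G) u
  obtain ⟨v, hv⟩ := exists_retraction pp G u' fun h => hu (by
    rw [← (T.Q (P := P)).map_zero]
    exact CategoryTheory.Quotient.sound _ h)
  refine ⟨T.Q.map v, ?_⟩
  rw [← Functor.map_comp, hv]
  exact T.Q.map_id _

end Pool.Agent.H47.TT
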